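import Pool.Agent.Helper25_CN3.Stmts

/-!
Squad CN3, module O_PCK: soundness of the packing check.
-/

noncomputable section

namespace Pool.Agent.CN3.H43

open Pool.Agent.H25Cong Pool.Agent.CON Pool.Agent.CN2 Pool.Agent.CN3

lemma mem_maps (t : ℕ) : ∀ (s : ℕ) (l : List ℕ), l.length = s → (∀ v ∈ l, v < t) →
    l ∈ maps t s := by
  intro s
  induction s with
  | zero =>
    intro l hl _
    rw [List.length_eq_zero_iff] at hl
    subst hl
    simp [maps]
  | succ s ih =>
    intro l hl hv
    cases l with
    | nil => simp at hl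
    | cons v l =>
      simp only [List.length_cons, Nat.add_right_cancel_iff] at hl
      unfold maps
      rw [List.mem_flatMap]
      refine ⟨l, ih l hl fun w hw => hv w (List.mem_cons_of_mem _ hw), ?_⟩
      rw [List.mem_map]
      exact ⟨v, List.mem_range.2 (hv v List.mem_cons_self), rfl⟩

lemma cnt_pos {k : ℕ} {f : ℕ → ℕ} {j : ℕ} : 0 < cnt k f j ↔ ∃ i < k, f i = j := by
  unfold cnt
  rw [List.length_pos_iff_exists_mem]
  simp only [List.mem_filter, List.mem_range, decide_eq_true_eq]

lemma cnt_congr {k : ℕ} {f g : ℕ → ℕ} (h : ∀ i < k, f i = g i) (j : ℕ) :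
    cnt k f j = cnt k g j := by
  unfold cnt
  congr 1
  apply List.filter_congr
  intro i hi
  rw [h i (List.mem_range.1 hi)]

theorem o_pck : O_PCK := by
  intro κ β s t h ⟨σ, hσ⟩
  unfold packB at h
  simp only [Bool.and_eq_true, decide_eq_true_eq, List.all_eq_true, List.any_eq_true,
    List.mem_range] at h
  obtain ⟨⟨⟨ht, hβ⟩, hκ⟩, hm⟩ := h
  have hget : ∀ i < β.length, β.getD i 0 ∈ β := by
    intro i hi
    rw [List.getD_eq_getElem _ _ hi]
    exact List.getElem_mem hi
  have h1 : ∀ i < β.length, σ (β.getD i 0) < t := by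
    intro i hi
    have h2 : 0 < cnt β.length (fun i => σ (β.getD i 0)) (σ (β.getD i 0)) :=
      cnt_pos.2 ⟨i, hi, rfl⟩
    obtain ⟨k, hk, hk2⟩ := cnt_pos.1 (lt_of_lt_of_le h2 (hσ _))
    rw [← hk2]
    exact hκ k hk
  obtain ⟨j, hj, hlt⟩ := hm ((List.range s).map fun b => if σ b < t then σ b else 0)
    (mem_maps t s _ (by simp) (by
      intro v hv
      rw [List.mem_map] at hv
      obtain ⟨b, _, rfl⟩ := hv
      split_ifs with hb
      · exact hb
      · exact ht))
  have h3 : cnt β.length (fun i => ((List.range s).map fun b => if σ b < t then σ b else 0).getD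
      (β.getD i 0) 0) j = cnt β.length (fun i => σ (β.getD i 0)) j := by
    apply cnt_congr
    intro i hi
    have hb : β.getD i 0 < s := hβ _ (hget i hi)
    rw [List.getD_eq_getElem _ _ (by rw [List.length_map, List.length_range]; exact hb)]
    simp only [List.getElem_map, List.getElem_range]
    rw [if_pos (h1 i hi)]
  rw [h3] at hlt
  exact absurd hlt (not_lt.2 (hσ j))

end Pool.Agent.CN3.H43

end
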