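import Pool.Agent.Helper25_CN3.Stmts

/-!
Squad CN3, module S_TRN: the Eichler transvections of a_0 are products of reflections.
-/

noncomputable section

namespace Pool.Agent.CN3.H43

open Pool.Agent.H25Cong Pool.Agent.CON Pool.Agent.CN2 Pool.Agent.CN3

variable {n : ℕ}

/-- the additive group of all m with E(e,m) in Γ -/
def tv (Γ : Subgroup (V n ≃ₗ[ℝ] V n)) (e : V n) (he : B e e = 0) : AddSubgroup (V n) where
  carrier := {m | ∃ hm : B m e = 0, E e m he hm ∈ Γ}
  zero_mem' := ⟨B_zero_left e, by rw [E_zero]; exact Γ.one_mem⟩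
  add_mem' := by
    rintro x y ⟨hx, hx'⟩ ⟨hy, hy'⟩
    have h : B (x + y) e = 0 := by rw [B_add_left, hx, hy, add_zero]
    refine ⟨h, ?_⟩
    rw [← E_mul e x y he hx hy h]
    exact Γ.mul_mem hx' hy'
  neg_mem' := by
    rintro x ⟨hx, hx'⟩
    have h : B (-x) e = 0 := by rw [B_neg_left, hx, neg_zero]
    refine ⟨h, ?_⟩
    rw [← E_inv e x he hx h]
    exact Γ.inv_mem hx'

lemma tv_self (Γ : Subgroup (V n ≃ₗ[ℝ] V n)) (e : V n) (he : B e e = 0) (c : ℝ) :
    c • e ∈ tv Γ e he := by
  have h : B (c • e) e = 0 := by rw [B_smul_left, he, mul_zero]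
  refine ⟨h, ?_⟩
  have : E e (c • e) he h = 1 := by
    ext1 x
    rw [E_apply, one_ap, B_smul_right, B_smul_left, B_smul_right, he, smul_smul]
    have : B x e * c = c * B x e := by ring
    rw [this]
    simp
  rw [this]
  exact Γ.one_mem

/-- the reflection in a root of norm 2 s -/
lemma refl_mem {L : Submodule ℤ (V n)} {r : V n} {s : ℤ} (hs : 0 < s) (hr : r ∈ L)
    (h2 : B r r = 2 * s) (h : ∀ x ∈ L, ∃ t : ℤ, B x r = s * t) : S r ∈ RefL L := by
  have hs' : (s : ℝ) ≠ 0 := by exact_mod_cast hs.ne'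
  apply Subgroup.subset_closure
  refine ⟨⟨r, ?_, fun x => S_apply r x⟩, fun x hx => ?_⟩
  · rw [h2]
    have : (0 : ℝ) < s := by exact_mod_cast hs
    linarith
  · obtain ⟨t, ht⟩ := h x hx
    rw [S_apply, ht, h2]
    have : 2 * ((s : ℝ) * t) / (2 * s) = (t : ℤ) := by
      field_simp
    rw [this, Int.cast_smul_eq_zsmul]
    exact L.sub_mem hx (L.smul_mem t hr)

theorem s_trn (h1 : V_HYP) (h2 : V_MEM) (h3 : V_EVN) : S_TRN := by
  intro n a G hG hh ht m hm he hme
  obtain ⟨hn, -, hff, hef, hk, hz⟩ := h1 n a G hG hh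
  have hE := h3 n a G hG
  have hGl : G.length = n + 1 := by
    have := hG.sym
    unfold symB at this
    simp only [Bool.and_eq_true, decide_eq_true_eq] at this
    exact this.1.1.1
  have hav : ∀ k : ℕ, av a k ∈ LL a := by
    intro k
    rw [← (h2 n a).2.2.1 k]
    exact (h2 n a).1 _
  -- the vectors a_k
  have key : ∀ k ∈ Finset.Ico 2 (n + 1), av a k ∈ tv (RefL (LL a)) (av a 0) he := by
    intro k hkk
    rw [Finset.mem_Ico] at hkk
    obtain ⟨hk2, hkn⟩ := hkk
    have hak : av a k = a ⟨k, hkn⟩ := by unfold av; rw [dif_pos hkn]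
    obtain ⟨hke, hkf⟩ := hk k hk2
    unfold trnB at ht
    simp only [List.all_eq_true, List.mem_range, Bool.or_eq_true, Bool.and_eq_true,
      decide_eq_true_eq] at ht
    obtain ⟨hpos, hdiv⟩ := (ht k (by rw [hGl]; exact hkn)).resolve_left (by omega)
    obtain ⟨s, hs⟩ := hE.even _ (hav k)
    have hs1 : ent G k k = 2 * s := by
      have := hG.gram ⟨k, hkn⟩ ⟨k, hkn⟩
      rw [← hak, hs] at this
      exact_mod_cast this.symm
    have hs0 : 0 < s := by omega
    have hs' : (s : ℝ) ≠ 0 := by exact_mod_cast hs0.ne'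
    have hdv : ∀ x ∈ LL a, ∃ t : ℤ, B x (av a k) = s * t := by
      intro x hx
      induction hx using Submodule.span_induction with
      | mem x hx =>
        obtain ⟨j, rfl⟩ := hx
        obtain ⟨c, hc⟩ := hdiv j (by rw [hGl]; exact j.2)
        refine ⟨c, ?_⟩
        rw [hak, B_comm, hG.gram]
        have : ent G k j = s * c := by
          rw [hs1] at hc
          have : 2 * ent G k j = 2 * (s * c) := by rw [hc]; ring
          omega
        simp only [this]
        push_cast
        ring
      | zero => exact ⟨0, by simp⟩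
      | add x y _ _ hx hy =>
        obtain ⟨t, ht⟩ := hx
        obtain ⟨u, hu⟩ := hy
        exact ⟨t + u, by rw [B_add_left, ht, hu]; push_cast; ring⟩
      | smul z x _ hx =>
        obtain ⟨t, ht⟩ := hx
        refine ⟨z * t, ?_⟩
        rw [← Int.cast_smul_eq_zsmul ℝ z x, B_smul_left, ht]
        push_cast
        ring
    have r1 : S (av a k) ∈ RefL (LL a) := refl_mem hs0 (hav k) hs hdv
    have r2 : S (av a k + (s : ℝ) • av a 0) ∈ RefL (LL a) := by
      apply refl_mem hs0
      · rw [Int.cast_smul_eq_zsmul]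
        exact (LL a).add_mem (hav k) ((LL a).smul_mem s (hav 0))
      · rw [B_add_left, B_add_right, B_add_right, B_smul_left, B_smul_left, B_smul_right,
          B_smul_right, he, hs, hke, B_comm (av a 0) (av a k), hke]
        ring
      · intro x hx
        obtain ⟨t, ht⟩ := hdv x hx
        obtain ⟨u, hu⟩ := hE.int x hx _ (hav 0)
        refine ⟨t + u, ?_⟩
        rw [B_add_right, B_smul_right, ht, hu]
        push_cast
        ring
    have hn : B (-av a k) (av a 0) = 0 := by rw [B_neg_left, hke, neg_zero]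
    have hprod : S (av a k + (s : ℝ) • av a 0) * S (av a k) =
        E (av a 0) (-av a k) he hn := by
      ext1 x
      rw [mul_ap, S_apply, S_apply, E_apply]
      have hek : B (av a 0) (av a k) = 0 := by rw [B_comm]; exact hke
      have hrr : B (av a k + (s : ℝ) • av a 0) (av a k + (s : ℝ) • av a 0) = 2 * s := by
        rw [B_add_left, B_add_right, B_add_right, B_smul_left, B_smul_left, B_smul_right,
          B_smul_right, he, hs, hke, hek]
        ring
      rw [hrr]
      simp only [B_sub_left, B_smul_left, B_add_right, B_smul_right, B_neg_left, B_neg_right, hs,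
        hke]
      ext i
      simp only [Pi.add_apply, Pi.sub_apply, Pi.smul_apply, Pi.neg_apply, smul_eq_mul]
      field_simp
      ring
    have hneg : -av a k ∈ tv (RefL (LL a)) (av a 0) he := by
      refine ⟨hn, ?_⟩
      rw [← hprod]
      exact Subgroup.mul_mem _ r2 r1
    have := neg_mem hneg
    rwa [neg_neg] at this
  obtain ⟨z, hz1, -, hz3⟩ := hz m hm
  rw [hme] at hz3
  have hz0 : z 1 = 0 := by
    have : ((z 1 : ℤ) : ℝ) = 0 := by linarith
    exact_mod_cast this
  have hmem : m ∈ tv (RefL (LL a)) (av a 0) he := by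
    rw [hz1, hz0]
    simp only [Int.cast_zero, zero_smul, add_zero]
    apply add_mem (tv_self _ _ _ _)
    apply sum_mem
    intro k hkk
    rw [Int.cast_smul_eq_zsmul]
    exact zsmul_mem (key k hkk) _
  obtain ⟨_, h⟩ := hmem
  exact h

end Pool.Agent.CN3.H43

end
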